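import Pool.Agent.H889R3.RQ.Stmts

/-!
# Task RQ.B1 (helper444): products, characters, coordinates
-/

set_option autoImplicit false

namespace Pool.Agent.H444R3.RQ

open Finset Pool.Agent.H572R2 Pool.Agent.H572R4.QA Pool.Agent.H889R3.RQ

/-- the character of `S` -/
noncomputable def chi {N : ℕ} (S : Finset (Fin N)) (x : Fin N → Bool) : ℝ :=
  ∏ i ∈ S, (-1 : ℝ) ^ (x i).toNat

lemma chi_eq_prod {N : ℕ} (S : Finset (Fin N)) (x : Fin N → Bool) :
    chi S x = ∏ i, (if i ∈ S then (-1 : ℝ) ^ (x i).toNat else 1) := by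
  unfold chi
  rw [Finset.prod_ite_mem, Finset.univ_inter]

lemma chi_mul {N : ℕ} (S T : Finset (Fin N)) (x : Fin N → Bool) :
    chi S x * chi T x = chi (symmDiff S T) x := by
  rw [chi_eq_prod, chi_eq_prod, chi_eq_prod, ← Finset.prod_mul_distrib]
  apply Finset.prod_congr rfl
  intro i _
  have h1 : ((-1 : ℝ) ^ (x i).toNat) * ((-1 : ℝ) ^ (x i).toNat) = 1 := by
    cases x i <;> simp
  by_cases hS : i ∈ S <;> by_cases hT : i ∈ T <;> simp [hS, hT, Finset.mem_symmDiff, h1]

lemma card_symmDiff_le {N : ℕ} (S T : Finset (Fin N)) :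
    (symmDiff S T).card ≤ S.card + T.card := by
  refine (Finset.card_le_card ?_).trans (Finset.card_union_le S T)
  intro i hi
  rw [Finset.mem_symmDiff] at hi
  rw [Finset.mem_union]
  tauto

lemma chi_mem {N : ℕ} (S : Finset (Fin N)) {k : ℕ} (h : S.card ≤ k) : chi S ∈ Pk N k :=
  Submodule.subset_span ⟨S, h, rfl⟩

lemma mul_mem {N : ℕ} (k l : ℕ) (f g : (Fin N → Bool) → ℝ) (hf : f ∈ Pk N k) (hg : g ∈ Pk N l) :
    (fun x => f x * g x) ∈ Pk N (k + l) := by
  unfold Pk at hf
  induction hf using Submodule.span_induction with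
  | mem f hf =>
    obtain ⟨S, hS, rfl⟩ := hf
    unfold Pk at hg
    induction hg using Submodule.span_induction with
    | mem g hg =>
      obtain ⟨T, hT, rfl⟩ := hg
      have : (fun x => (∏ i ∈ S, (-1 : ℝ) ^ (x i).toNat) * ∏ i ∈ T, (-1 : ℝ) ^ (x i).toNat) =
          chi (symmDiff S T) := by
        funext x
        exact chi_mul S T x
      rw [this]
      exact chi_mem _ ((card_symmDiff_le S T).trans (by omega))
    | zero =>
      have : (fun x : Fin N → Bool => (∏ i ∈ S, (-1 : ℝ) ^ (x i).toNat) *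
          (0 : (Fin N → Bool) → ℝ) x) = 0 := by
        funext x; simp
      rw [this]
      exact Submodule.zero_mem _
    | add g₁ g₂ _ _ h₁ h₂ =>
      have : (fun x : Fin N → Bool => (∏ i ∈ S, (-1 : ℝ) ^ (x i).toNat) * (g₁ + g₂) x) =
          (fun x => (∏ i ∈ S, (-1 : ℝ) ^ (x i).toNat) * g₁ x) +
          (fun x => (∏ i ∈ S, (-1 : ℝ) ^ (x i).toNat) * g₂ x) := by
        funext x; simp [mul_add]
      rw [this]
      exact Submodule.add_mem _ h₁ h₂
    | smul c g _ h =>
      have : (fun x : Fin N → Bool => (∏ i ∈ S, (-1 : ℝ) ^ (x i).toNat) * (c • g) x) =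
          c • (fun x => (∏ i ∈ S, (-1 : ℝ) ^ (x i).toNat) * g x) := by
        funext x; simp only [Pi.smul_apply, smul_eq_mul]; ring
      rw [this]
      exact Submodule.smul_mem _ c h
  | zero =>
    have : (fun x : Fin N → Bool => (0 : (Fin N → Bool) → ℝ) x * g x) = 0 := by
      funext x; simp
    rw [this]
    exact Submodule.zero_mem _
  | add f₁ f₂ _ _ h₁ h₂ =>
    have : (fun x : Fin N → Bool => (f₁ + f₂) x * g x) =
        (fun x => f₁ x * g x) + (fun x => f₂ x * g x) := by
      funext x; simp [add_mul]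
    rw [this]
    exact Submodule.add_mem _ h₁ h₂
  | smul c f _ h =>
    have : (fun x : Fin N → Bool => (c • f) x * g x) = c • (fun x => f x * g x) := by
      funext x; simp only [Pi.smul_apply, smul_eq_mul]; ring
    rw [this]
    exact Submodule.smul_mem _ c h

lemma chi_flp {N : ℕ} (S : Finset (Fin N)) (i : Fin N) (hi : i ∈ S) (x : Fin N → Bool) :
    chi S (flp i x) = - chi S x := by
  unfold chi
  rw [← Finset.mul_prod_erase S _ hi, ← Finset.mul_prod_erase S _ hi, flp_same]
  have h1 : ∏ j ∈ S.erase i, (-1 : ℝ) ^ (flp i x j).toNat =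
      ∏ j ∈ S.erase i, (-1 : ℝ) ^ (x j).toNat := by
    apply Finset.prod_congr rfl
    intro j hj
    rw [flp_ne (Finset.ne_of_mem_erase hj)]
  rw [h1]
  cases x i <;> simp

lemma sum_chi {N : ℕ} (S : Finset (Fin N)) (hS : S.Nonempty) : ∑ x, chi S x = 0 := by
  obtain ⟨i, hi⟩ := hS
  have h1 : ∑ x, chi S (flp i x) = ∑ x, chi S x := Equiv.sum_comp (flpEquiv i) (chi S)
  simp only [chi_flp S i hi, Finset.sum_neg_distrib] at h1
  linarith

lemma degLe {N : ℕ} (k : ℕ) (f : (Fin N → Bool) → ℝ) (hf : f ∈ Pk N k) : DegLe k f := by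
  intro S hS
  unfold Pk at hf
  induction hf using Submodule.span_induction with
  | mem f hf =>
    obtain ⟨T, hT, rfl⟩ := hf
    have h1 : ∀ x : Fin N → Bool, (∏ i ∈ T, (-1 : ℝ) ^ (x i).toNat) *
        ∏ i ∈ S, (-1 : ℝ) ^ (x i).toNat = chi (symmDiff T S) x := fun x => chi_mul T S x
    simp only [h1]
    apply sum_chi
    rw [Finset.nonempty_iff_ne_empty]
    intro h
    have : T = S := by simpa [symmDiff_eq_bot] using h
    subst this
    omega
  | zero => simp
  | add f₁ f₂ _ _ h₁ h₂ =>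
    simp only [Pi.add_apply, add_mul, Finset.sum_add_distrib, h₁, h₂, add_zero]
  | smul c f _ h =>
    simp only [Pi.smul_apply, smul_eq_mul, mul_assoc, ← Finset.mul_sum, h, mul_zero]

theorem b1 : St_B1 := by
  intro N
  refine ⟨mul_mem, ?_, ?_, ?_, degLe⟩
  · intro k l h
    apply Submodule.span_mono
    rintro g ⟨S, hS, rfl⟩
    exact ⟨S, hS.trans h, rfl⟩
  · intro c
    have : (fun _ : Fin N → Bool => c) = c • chi ∅ := by
      funext x; simp [chi]
    rw [this]
    exact Submodule.smul_mem _ c (chi_mem _ (by simp))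
  · intro i
    have : (fun x : Fin N → Bool => if x i then (1 : ℝ) else 0) =
        (1 / 2 : ℝ) • chi ∅ - (1 / 2 : ℝ) • chi {i} := by
      funext x
      simp only [chi, Pi.sub_apply, Pi.smul_apply, Finset.prod_empty, Finset.prod_singleton,
        smul_eq_mul]
      cases x i <;> simp <;> norm_num
    rw [this]
    exact Submodule.sub_mem _ (Submodule.smul_mem _ _ (chi_mem _ (by simp)))
      (Submodule.smul_mem _ _ (chi_mem _ (by simp)))

end Pool.Agent.H444R3.RQ
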